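import Mathlib

set_option autoImplicit false

namespace Pool.Agent.H987Z.US

/-- `E` is a countable Borel equivalence relation on `X`: an equivalence relation which is a
Borel subset of `X × X` and all of whose classes are countable. -/
structure IsCBER {X : Type} [MeasurableSpace X] (E : X → X → Prop) : Prop where
  equiv : Equivalence E
  borel : MeasurableSet {p : X × X | E p.1 p.2}
  countable : ∀ x, {y | E x y}.Countable

/-- `E` and `F` are Borel isomorphic. -/
def BorelIso {X Y : Type} [MeasurableSpace X] [MeasurableSpace Y] (E : X → X → Prop)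
    (F : Y → Y → Prop) : Prop :=
  ∃ f : X → Y, Measurable f ∧ Function.Bijective f ∧ ∀ x x', E x x' ↔ F (f x) (f x')

/-- `E` invariantly Borel embeds into `F`: an injective Borel reduction with invariant image. -/
def InvEmbeds {X Y : Type} [MeasurableSpace X] [MeasurableSpace Y] (E : X → X → Prop)
    (F : Y → Y → Prop) : Prop :=
  ∃ f : X → Y, Measurable f ∧ Function.Injective f ∧ (∀ x x', E x x' ↔ F (f x) (f x')) ∧
    ∀ x y, F (f x) y → y ∈ Set.range f

/-- Continuum many disjoint copies of `E`. -/
def realMul {X : Type} (E : X → X → Prop) : X × ℝ → X × ℝ → Prop :=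
  fun p q => E p.1 q.1 ∧ p.2 = q.2

/-- A countable relational language: countably many relation symbols, each with an arity. -/
structure RelLang : Type 1 where
  sym : Type
  countable : Countable sym
  ar : sym → ℕ

/-- Formulas of the infinitary logic with countable conjunctions and finite quantifiers, with free
variables among `n` variables. -/
inductive Form (L : RelLang) : ℕ → Type
  | eq {n : ℕ} (i j : Fin n) : Form L n
  | rel {n : ℕ} (R : L.sym) (v : Fin (L.ar R) → Fin n) : Form L n
  | not {n : ℕ} (φ : Form L n) : Form L n
  | conj {n : ℕ} (φ : ℕ → Form L n) : Form L n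
  | ex {n : ℕ} (φ : Form L (n + 1)) : Form L n

/-- Satisfaction in the structure on `M` whose relations are given by `I`. -/
def Form.Sat {L : RelLang} {M : Type} (I : (R : L.sym) → (Fin (L.ar R) → M) → Prop) :
    {n : ℕ} → Form L n → (Fin n → M) → Prop
  | _, .eq i j, a => a i = a j
  | _, .rel R v, a => I R (fun k => a (v k))
  | _, .not φ, a => ¬ φ.Sat I a
  | _, .conj φ, a => ∀ m, (φ m).Sat I a
  | _, .ex φ, a => ∃ x : M, φ.Sat I (Fin.cons x a)

/-- `E` is `σ`-structurable: there are Borel relations on `X`, holding only on tuples of pairwise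
`E`-equivalent points, whose restriction to each `E`-class is a model of the sentence `σ`. -/
def Structurable {L : RelLang} (σ : Form L 0) {X : Type} [MeasurableSpace X]
    (E : X → X → Prop) : Prop :=
  ∃ A : (R : L.sym) → Set (Fin (L.ar R) → X), (∀ R, MeasurableSet (A R)) ∧
    (∀ R, ∀ v ∈ A R, ∀ i j, E (v i) (v j)) ∧
    ∀ x, σ.Sat (M := {y // E x y}) (fun R v => (fun k => (v k).1) ∈ A R) Fin.elim0

/-- `U` is an invariantly universal `σ`-structurable countable Borel equivalence relation. -/
def InvUniversal {L : RelLang} (σ : Form L 0) {Y : Type} [MeasurableSpace Y]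
    (U : Y → Y → Prop) : Prop :=
  IsCBER U ∧ Structurable σ U ∧
    ∀ (Z : Type) [MeasurableSpace Z] [StandardBorelSpace Z] (F : Z → Z → Prop),
      IsCBER F → Structurable σ F → InvEmbeds F U

/-- `E` is universally structurable: Borel isomorphic to the invariantly universal
`σ`-structurable relation for some sentence `σ`. -/
def UniversallyStructurable {X : Type} [MeasurableSpace X] (E : X → X → Prop) : Prop :=
  ∃ (L : RelLang) (σ : Form L 0) (Y : Type) (_ : MeasurableSpace Y) (_ : StandardBorelSpace Y)
    (U : Y → Y → Prop), InvUniversal σ U ∧ BorelIso E U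

end Pool.Agent.H987Z.US
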