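import Mathlib

set_option autoImplicit false

namespace Pool.Agent.H987Z.US

open Set MeasureTheory Topology Filter
open scoped symmDiff Pointwise

abbrev Lam : Type := FreeGroup Bool
abbrev Xs : Type := Lam → ZMod 2

def sgn (u : ZMod 2) : ℝ := if u = 0 then 1 else -1

theorem sgn_mul_self (u : ZMod 2) : sgn u * sgn u = 1 := by
  unfold sgn; split_ifs <;> norm_num

theorem sgn_one_add (u : ZMod 2) : sgn (1 + u) = - sgn u := by
  fin_cases u
  · show sgn (1 + 0) = - sgn 0
    simp [sgn]
  · show sgn (1 + 1) = - sgn 1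
    have : (1 + 1 : ZMod 2) = 0 := by decide
    simp [sgn, this]

theorem sgn_inj {u v : ZMod 2} (h : sgn u = sgn v) : u = v := by
  have h01 : (1 : ZMod 2) ≠ 0 := by decide
  fin_cases u <;> fin_cases v
  · rfl
  · exfalso
    have h' : sgn 0 = sgn 1 := h
    simp [sgn, h01] at h'
    norm_num at h'
  · exfalso
    have h' : sgn 1 = sgn 0 := h
    simp [sgn, h01] at h'
    norm_num at h'
  · rfl

theorem abs_sgn (u : ZMod 2) : |sgn u| = 1 := by
  unfold sgn; split_ifs <;> norm_num

/-- Walsh functions -/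
def w (S : Finset Lam) : C(Xs, ℝ) :=
  ⟨fun x => ∏ g ∈ S, sgn (x g), continuous_finset_prod _ fun g _ =>
    (continuous_of_discreteTopology (f := sgn)).comp (continuous_apply g)⟩

theorem w_apply (S : Finset Lam) (x : Xs) : w S x = ∏ g ∈ S, sgn (x g) := rfl

theorem w_empty : w ∅ = 1 := by ext x; simp [w_apply]

theorem abs_w (S : Finset Lam) (x : Xs) : |w S x| = 1 := by
  rw [w_apply, Finset.abs_prod]
  simp [abs_sgn]

theorem w_mul (S T : Finset Lam) : w S * w T = w (S ∆ T) := by
  ext x
  simp only [ContinuousMap.mul_apply, w_apply]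
  have hS : ∏ g ∈ S, sgn (x g) = (∏ g ∈ S \ T, sgn (x g)) * ∏ g ∈ S ∩ T, sgn (x g) := by
    rw [← Finset.prod_sdiff (Finset.inter_subset_left (s₁ := S) (s₂ := T)),
      Finset.sdiff_inter_self_left]
  have hT : ∏ g ∈ T, sgn (x g) = (∏ g ∈ T \ S, sgn (x g)) * ∏ g ∈ S ∩ T, sgn (x g) := by
    rw [← Finset.prod_sdiff (Finset.inter_subset_right (s₁ := S) (s₂ := T)),
      Finset.sdiff_inter_self_right]
  have h2 : (∏ g ∈ S ∩ T, sgn (x g)) * ∏ g ∈ S ∩ T, sgn (x g) = 1 := by
    rw [← Finset.prod_mul_distrib]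
    simp [sgn_mul_self]
  rw [symmDiff_def, Finset.sup_eq_union, Finset.prod_union disjoint_sdiff_sdiff, hS, hT]
  calc _ = ((∏ g ∈ S \ T, sgn (x g)) * ∏ g ∈ T \ S, sgn (x g)) *
      ((∏ g ∈ S ∩ T, sgn (x g)) * ∏ g ∈ S ∩ T, sgn (x g)) := by ring
    _ = _ := by rw [h2, mul_one]

theorem span_w_dense : (Submodule.span ℝ (range w)).topologicalClosure = ⊤ := by
  have h1 : (Algebra.adjoin ℝ (range w)).toSubmodule = Submodule.span ℝ (range w) := by
    apply Algebra.adjoin_eq_span_of_subset
    refine .trans (fun x => Submonoid.closure_induction (fun _ => id) ⟨∅, w_empty⟩ ?_)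
      Submodule.subset_span
    rintro _ _ _ _ ⟨m, rfl⟩ ⟨n, rfl⟩
    exact ⟨_, (w_mul m n).symm⟩
  have h2 : (Algebra.adjoin ℝ (range w)).SeparatesPoints := by
    intro x y hxy
    obtain ⟨i, hi⟩ := Function.ne_iff.1 hxy
    refine ⟨_, ⟨w {i}, Algebra.subset_adjoin ⟨{i}, rfl⟩, rfl⟩, ?_⟩
    simp only [w_apply, Finset.prod_singleton]
    exact fun h => hi (sgn_inj h)
  rw [← h1]
  exact congr_arg Subalgebra.toSubmodule
    (ContinuousMap.subalgebra_topologicalClosure_eq_top_of_separatesPoints _ h2)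

def ee (g : Lam) : Xs := Pi.single g 1

theorem w_flip {S : Finset Lam} {g : Lam} (hg : g ∈ S) (x : Xs) : w S (ee g + x) = - w S x := by
  rw [w_apply, w_apply, ← Finset.mul_prod_erase S _ hg, ← Finset.mul_prod_erase S _ hg]
  have h1 : ∏ a ∈ S.erase g, sgn ((ee g + x) a) = ∏ a ∈ S.erase g, sgn (x a) := by
    refine Finset.prod_congr rfl fun a ha => ?_
    simp [ee, Pi.single_eq_of_ne (Finset.ne_of_mem_erase ha)]
  rw [h1]
  simp [ee, sgn_one_add]

theorem integral_w_eq_zero (ν : Measure Xs) (hν : ∀ g, MeasurePreserving (fun x => ee g + x) ν ν)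
    {S : Finset Lam} (hS : S.Nonempty) : ∫ x, w S x ∂ν = 0 := by
  obtain ⟨g, hg⟩ := hS
  have h1 : ∫ x, w S (ee g + x) ∂ν = ∫ x, w S x ∂ν := by
    have := integral_map (μ := ν) (hν g).measurable.aemeasurable
      (f := fun x => w S x) (w S).continuous.aestronglyMeasurable
    rw [(hν g).map_eq] at this
    exact this.symm
  simp only [w_flip hg, integral_neg] at h1
  linarith

theorem integrable_cont (ν : Measure Xs) [IsFiniteMeasure ν] (f : C(Xs, ℝ)) :
    Integrable (fun x => f x) ν :=
  (BoundedContinuousFunction.mkOfCompact f).integrable ν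

theorem measure_unique (ν ν' : Measure Xs) [IsFiniteMeasure ν] [IsFiniteMeasure ν']
    (hν : ∀ g, MeasurePreserving (fun x => ee g + x) ν ν)
    (hν' : ∀ g, MeasurePreserving (fun x => ee g + x) ν' ν') (h : ν univ = ν' univ) :
    ν = ν' := by
  have hcont : ∀ (ρ : Measure Xs) [IsFiniteMeasure ρ],
      Continuous fun f : C(Xs, ℝ) => ∫ x, f x ∂ρ := by
    intro ρ _
    refine (LipschitzWith.of_dist_le_mul (K := ⟨ρ.real univ, measureReal_nonneg⟩) ?_).continuous
    intro f g
    rw [Real.dist_eq, ← integral_sub (integrable_cont ρ f) (integrable_cont ρ g)]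
    have := norm_integral_le_of_norm_le_const (μ := ρ) (f := fun x => f x - g x)
      (C := dist f g) (Eventually.of_forall fun x => by
        rw [← dist_eq_norm]; exact ContinuousMap.dist_apply_le_dist x)
    rw [Real.norm_eq_abs] at this
    show _ ≤ ρ.real univ * dist f g
    rw [mul_comm]
    exact this
  have hcl : IsClosed {f : C(Xs, ℝ) | ∫ x, f x ∂ν = ∫ x, f x ∂ν'} :=
    isClosed_eq (hcont ν) (hcont ν')
  have hsub : (Submodule.span ℝ (range w) : Set C(Xs, ℝ)) ⊆
      {f : C(Xs, ℝ) | ∫ x, f x ∂ν = ∫ x, f x ∂ν'} := by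
    intro f hf
    induction hf using Submodule.span_induction with
    | mem f hf =>
      obtain ⟨S, rfl⟩ := hf
      rcases S.eq_empty_or_nonempty with rfl | hS
      · simp [w_empty, Measure.real, h]
      · show ∫ x, w S x ∂ν = ∫ x, w S x ∂ν'
        rw [integral_w_eq_zero ν hν hS, integral_w_eq_zero ν' hν' hS]
    | zero => simp
    | add f g _ _ hf hg =>
      show ∫ x, (f x + g x) ∂ν = ∫ x, (f x + g x) ∂ν'
      rw [integral_add (integrable_cont _ f) (integrable_cont _ g),
        integral_add (integrable_cont _ f) (integrable_cont _ g), hf, hg]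
    | smul a f _ hf =>
      show ∫ x, a * f x ∂ν = ∫ x, a * f x ∂ν'
      rw [integral_const_mul, integral_const_mul, hf]
  apply ext_of_forall_integral_eq_of_IsFiniteMeasure
  intro f
  have h1 : f.toContinuousMap ∈ closure (Submodule.span ℝ (range w) : Set C(Xs, ℝ)) := by
    rw [← Submodule.topologicalClosure_coe, span_w_dense]
    trivial
  exact closure_minimal hsub hcl h1

/-- Haar probability measure -/
noncomputable def mu : Measure Xs := Measure.addHaarMeasure ⊤

instance : IsProbabilityMeasure mu :=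
  ⟨by rw [← TopologicalSpace.PositiveCompacts.coe_top]; exact Measure.addHaarMeasure_self⟩

instance : mu.IsAddLeftInvariant := by unfold mu; infer_instance

theorem mp_add (y : Xs) : MeasurePreserving (fun x => y + x) mu mu :=
  measurePreserving_add_left mu y

def shf (l : Lam) (x : Xs) : Xs := fun g => x (l⁻¹ * g)

theorem shf_one (x : Xs) : shf 1 x = x := by funext g; simp [shf]

theorem shf_mul (a b : Lam) (x : Xs) : shf (a * b) x = shf a (shf b x) := by
  funext g; simp [shf, mul_assoc]

theorem shf_add (l : Lam) (x y : Xs) : shf l (x + y) = shf l x + shf l y := rfl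

theorem shf_ee (l g : Lam) : shf l (ee g) = ee (l * g) := by
  funext a
  simp only [shf, ee]
  by_cases h : a = l * g
  · subst h; simp
  · rw [Pi.single_eq_of_ne h, Pi.single_eq_of_ne]
    intro h'
    apply h
    rw [← h']; simp

theorem measurable_shf (l : Lam) : Measurable (shf l) :=
  measurable_pi_lambda _ fun _ => measurable_pi_apply _

theorem mp_shf (l : Lam) : MeasurePreserving (shf l) mu mu := by
  refine ⟨measurable_shf l, ?_⟩
  have : IsProbabilityMeasure (mu.map (shf l)) :=
    Measure.isProbabilityMeasure_map (measurable_shf l).aemeasurable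
  refine measure_unique _ _ ?_ (fun g => mp_add _) (by simp)
  intro g
  refine ⟨measurable_const_add _, ?_⟩
  rw [Measure.map_map (measurable_const_add _) (measurable_shf l)]
  have : (fun x => ee g + x) ∘ shf l = shf l ∘ fun x => ee (l⁻¹ * g) + x := by
    funext x
    simp [shf_add, shf_ee]
  rw [this, ← Measure.map_map (measurable_shf l) (measurable_const_add _), (mp_add _).map_eq]

theorem w_shf (l : Lam) (S : Finset Lam) (x : Xs) : w (l • S) (shf l x) = w S x := by
  rw [w_apply, w_apply, Finset.smul_finset_def, Finset.prod_image]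
  · simp [shf]
  · intro a _ b _ h
    simpa using h

noncomputable def wL (S : Finset Lam) : Lp ℝ 2 mu := ContinuousMap.toLp (E := ℝ) 2 mu ℝ (w S)

theorem orthonormal_wL : Orthonormal ℝ wL := by
  classical
  rw [orthonormal_iff_ite]
  intro S T
  simp only [wL, ContinuousMap.inner_toLp]
  have : ∀ x, w T x * (starRingEnd ℝ) (w S x) = w (T ∆ S) x := by
    intro x; rw [← w_mul]; simp
  simp only [this]
  split_ifs with h
  · subst h; simp [w_empty]
  · exact integral_w_eq_zero mu (fun g => mp_add _)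
      (Finset.symmDiff_nonempty.2 (Ne.symm h))

noncomputable def wB : HilbertBasis (Finset Lam) ℝ (Lp ℝ 2 mu) :=
  HilbertBasis.mk orthonormal_wL (by
    have := (ContinuousMap.toLp_denseRange ℝ mu ℝ (p := 2) (by norm_num)).topologicalClosure_map_submodule
      span_w_dense
    rw [Submodule.map_span] at this
    rw [← this]
    apply le_of_eq
    congr 2
    rw [← range_comp]
    rfl)

/-- Parseval for bounded measurable functions -/
theorem parseval {h : Xs → ℝ} (hm : Measurable h) {C : ℝ} (hC : ∀ x, |h x| ≤ C) :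
    HasSum (fun S => (∫ x, w S x * h x ∂mu) ^ 2) (∫ x, h x ^ 2 ∂mu) := by
  have hL : MemLp h 2 mu := MemLp.of_bound hm.aestronglyMeasurable C (Eventually.of_forall hC)
  have h1 := wB.hasSum_inner_mul_inner (hL.toLp h) (hL.toLp h)
  have h2 : ∀ S, inner ℝ (wB S) (hL.toLp h) = ∫ x, w S x * h x ∂mu := by
    intro S
    rw [wB, HilbertBasis.coe_mk, L2.inner_def]
    refine integral_congr_ae ?_
    filter_upwards [hL.coeFn_toLp, ContinuousMap.coeFn_toLp (p := 2) (𝕜 := ℝ) mu (w S)]
      with x h1 h2
    rw [h1, wL, h2]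
    simp [mul_comm]
  have h3 : inner ℝ (hL.toLp h) (hL.toLp h) = ∫ x, h x ^ 2 ∂mu := by
    rw [L2.inner_def]
    refine integral_congr_ae ?_
    filter_upwards [hL.coeFn_toLp] with x h1
    rw [h1]
    simp [sq]
  rw [h3] at h1
  have h4 : (fun S => (∫ x, w S x * h x ∂mu) ^ 2) =
      fun i => inner ℝ (MemLp.toLp h hL) (wB i) * inner ℝ (wB i) (MemLp.toLp h hL) := by
    funext S
    rw [real_inner_comm, h2, sq]
  rw [h4]
  exact h1

end Pool.Agent.H987Z.US
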