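import Mathlib
import Pool.Agent.H987Z.US.Walsh

set_option autoImplicit false

namespace Pool.Agent.H987Z.US

open Set MeasureTheory Topology Filter
open scoped symmDiff Pointwise

theorem free_finset {k : Lam} {S : Finset Lam} (hS : S.Nonempty) (h : k • S = S) : k = 1 := by
  obtain ⟨a, ha⟩ := hS
  have h1 : ∀ n : ℕ, k ^ n * a ∈ S := by
    intro n
    induction n with
    | zero => simpa using ha
    | succ n ih =>
      rw [pow_succ', mul_assoc, ← h]
      exact Finset.smul_mem_smul_finset ih
  by_contra hk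
  have h2 : ¬ IsOfFinOrder k := fun hf => hk hf.eq_one'
  have h3 : Function.Injective fun n : ℕ => k ^ n * a := fun n m hnm =>
    (injective_pow_iff_not_isOfFinOrder.2 h2) (mul_right_cancel hnm)
  exact (infinite_range_of_injective h3) (S.finite_toSet.subset (by rintro _ ⟨n, rfl⟩; exact h1 n))

theorem exists_label : ∃ ℓ : Finset Lam → Lam, ∀ (g : Lam) (S : Finset Lam), S.Nonempty →
    ℓ (g • S) = g * ℓ S := by
  let rep : Finset Lam → Finset Lam := fun S =>
    (Quotient.mk (MulAction.orbitRel Lam (Finset Lam)) S).out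
  have h1 : ∀ S, ∃ g : Lam, g • rep S = S := by
    intro S
    have : (MulAction.orbitRel Lam (Finset Lam)) S (rep S) :=
      Quotient.exact (Quotient.out_eq _).symm
    exact this
  choose ℓ hℓ using h1
  refine ⟨ℓ, fun g S hS => ?_⟩
  have h2 : rep (g • S) = rep S := by
    simp only [rep]
    congr 1
    exact Quotient.sound ⟨g, rfl⟩
  have h3 := hℓ (g • S)
  rw [h2] at h3
  have h4 : (rep S).Nonempty := by
    rw [← hℓ S] at hS
    exact Finset.smul_finset_nonempty.1 hS
  have h5 : ((g * ℓ S)⁻¹ * ℓ (g • S)) • rep S = rep S := by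
    rw [mul_smul, h3, inv_smul_eq_iff, mul_smul, hℓ S]
  have h6 := free_finset h4 h5
  rw [inv_mul_eq_one] at h6
  exact h6.symm

theorem gap_seq (u : Finset Lam → ℝ) (h0 : u ∅ = 0) {P : ℝ} {D : Bool → ℝ}
    (hP : HasSum (fun S => u S ^ 2) P)
    (hD : ∀ b, HasSum (fun S => (u (FreeGroup.of b • S) - u S) ^ 2) (D b)) :
    P ≤ 6 * (D false + D true) := by
  classical
  obtain ⟨ℓ, hℓ⟩ := exists_label
  let a : Bool × Bool → Finset Lam → ℝ := fun c S =>
    if ℓ S ∈ FreeGroup.startsWith c then u S ^ 2 else 0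
  have ha0 : ∀ c S, 0 ≤ a c S := by
    intro c S; simp only [a]; split_ifs <;> positivity
  have hsum : ∀ c, Summable (a c) := by
    intro c
    refine Summable.of_nonneg_of_le (ha0 c) (fun S => ?_) hP.summable
    simp only [a]; split_ifs
    · exact le_rfl
    · positivity
  have hpt : ∀ b S, u S ^ 2 ≤ a (b, false) S + 3 / 2 * a (b, true) (FreeGroup.of b • S) +
      3 * (u (FreeGroup.of b • S) - u S) ^ 2 := by
    intro b S
    have h1 := ha0 (b, false) S
    have h2 := ha0 (b, true) (FreeGroup.of b • S)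
    rcases S.eq_empty_or_nonempty with rfl | hS
    · have : 0 ≤ (u (FreeGroup.of b • ∅) - u ∅) ^ 2 := by positivity
      have h00 : u ∅ ^ 2 = 0 := by rw [h0]; norm_num
      linarith
    by_cases h : ℓ S ∈ FreeGroup.startsWith (b, false)
    · have : a (b, false) S = u S ^ 2 := if_pos h
      rw [this]
      have : 0 ≤ (u (FreeGroup.of b • S) - u S) ^ 2 := by positivity
      linarith
    · have h3 : ℓ (FreeGroup.of b • S) ∈ FreeGroup.startsWith (b, true) := by
        rw [hℓ _ _ hS]
        exact FreeGroup.startsWith_mk_mul (w := (b, true)) _ h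
      have : a (b, true) (FreeGroup.of b • S) = u (FreeGroup.of b • S) ^ 2 := if_pos h3
      rw [this]
      nlinarith [sq_nonneg (u (FreeGroup.of b • S) - 2 * (u S - u (FreeGroup.of b • S)))]
  have hb : ∀ b, P ≤ ∑' S, a (b, false) S + 3 / 2 * ∑' S, a (b, true) S + 3 * D b := by
    intro b
    have h1 : HasSum (fun S => a (b, true) (FreeGroup.of b • S)) (∑' S, a (b, true) S) :=
      (Equiv.hasSum_iff (MulAction.toPerm (FreeGroup.of b : Lam))).2 (hsum _).hasSum
    exact hasSum_le (hpt b) hP
      (((hsum _).hasSum.add (h1.mul_left _)).add ((hD b).mul_left _))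
  have htot : ∑' S, a (false, false) S + ∑' S, a (false, true) S + ∑' S, a (true, false) S +
      ∑' S, a (true, true) S ≤ P := by
    refine hasSum_le (fun S => ?_) ((((hsum _).hasSum.add (hsum _).hasSum).add
      (hsum _).hasSum).add (hsum _).hasSum) hP
    have hu : 0 ≤ u S ^ 2 := by positivity
    obtain ⟨o, ho⟩ : ∃ o, (ℓ S).toWord[0]? = o := ⟨_, rfl⟩
    have hc : ∀ c, ℓ S ∈ FreeGroup.startsWith c ↔ o = some c := fun c => by rw [← ho]; rfl
    simp only [a, hc]
    rcases o with _ | ⟨_ | _, _ | _⟩ <;> simp [hu]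
  have h1 := hb false
  have h2 := hb true
  have h3 : 0 ≤ ∑' S, a (false, false) S := tsum_nonneg (ha0 _)
  have h4 : 0 ≤ ∑' S, a (true, false) S := tsum_nonneg (ha0 _)
  linarith

theorem integrable_bdd {Ω : Type} [MeasurableSpace Ω] (ν : Measure Ω) [IsFiniteMeasure ν]
    {h : Ω → ℝ} (hm : Measurable h) {C : ℝ} (hC : ∀ x, |h x| ≤ C) : Integrable h ν :=
  Integrable.of_bound hm.aestronglyMeasurable C (Eventually.of_forall hC)

theorem integrable_w_mul {h : Xs → ℝ} (hm : Measurable h) {C : ℝ} (hC : ∀ x, |h x| ≤ C)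
    (S : Finset Lam) : Integrable (fun x => w S x * h x) mu :=
  integrable_bdd mu ((w S).continuous.measurable.mul hm) (C := C) fun x => by
    rw [abs_mul, abs_w, one_mul]; exact hC x

/-- spectral gap of the Bernoulli shift of the free group -/
theorem gap {h : Xs → ℝ} (hm : Measurable h) (hC : ∀ x, |h x| ≤ 1) :
    ∫ x, (h x - ∫ y, h y ∂mu) ^ 2 ∂mu ≤
      6 * (∫ x, (h (shf (FreeGroup.of false) x) - h x) ^ 2 ∂mu +
        ∫ x, (h (shf (FreeGroup.of true) x) - h x) ^ 2 ∂mu) := by
  classical
  set m := ∫ y, h y ∂mu with hmdef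
  have hm0 : Measurable fun x => h x - m := hm.sub_const m
  have hC0 : ∀ x, |h x - m| ≤ 1 + |m| := fun x =>
    (abs_sub _ _).trans (by linarith [hC x])
  let u : Finset Lam → ℝ := fun S => ∫ x, w S x * (h x - m) ∂mu
  have hu0 : u ∅ = 0 := by
    simp only [u, w_empty, ContinuousMap.one_apply, one_mul]
    rw [integral_sub (integrable_bdd mu hm hC) (integrable_const _)]
    simp [hmdef]
  refine gap_seq u hu0 (D := fun b => ∫ x, (h (shf (FreeGroup.of b) x) - h x) ^ 2 ∂mu)
    (parseval hm0 hC0) fun b => ?_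
  have hm1 : Measurable fun x => h (shf (FreeGroup.of b) x) - h x :=
    (hm.comp (measurable_shf _)).sub hm
  have hC1 : ∀ x, |h (shf (FreeGroup.of b) x) - h x| ≤ 2 := fun x =>
    (abs_sub _ _).trans (by linarith [hC x, hC (shf (FreeGroup.of b) x)])
  have h1 := parseval hm1 hC1
  have h2 : ∀ S, u (FreeGroup.of b • S) - u S =
      ∫ x, w S x * (h (shf (FreeGroup.of b) x) - h x) ∂mu := by
    intro S
    have e1 : u (FreeGroup.of b • S) =
        ∫ x, w S x * (h (shf (FreeGroup.of b) x) - m) ∂mu := by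
      have hmf : Measurable fun y => w (FreeGroup.of b • S) y * (h y - m) :=
        (w _).continuous.measurable.mul hm0
      have := integral_map (μ := mu) (mp_shf (FreeGroup.of b)).measurable.aemeasurable
        hmf.aestronglyMeasurable
      rw [(mp_shf _).map_eq] at this
      simp only [w_shf] at this
      exact this
    rw [e1]
    simp only [u]
    rw [← integral_sub]
    · congr 1; funext x; ring
    · exact integrable_w_mul ((hm.comp (measurable_shf _)).sub_const m) (fun x => hC0 _) S
    · exact integrable_w_mul hm0 hC0 S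
  simp only [h2]
  exact h1

end Pool.Agent.H987Z.US
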