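import Mathlib
import Pool.Agent.H987Z.US.Defs
import Pool.Agent.H987Z.US.Gap

set_option autoImplicit false

namespace Pool.Agent.H987Z.US

open Set MeasureTheory Topology Filter

theorem fullgroup_mp {Y : Type} [MeasurableSpace Y] [StandardBorelSpace Y] (m : Measure Y)
    [IsProbabilityMeasure m] {ι : Type} [Countable ι] [Nonempty ι] (T : ι → Y → Y)
    (hT : ∀ i, MeasurePreserving (T i) m m) (θ : Y → Y) (hθ : Measurable θ)
    (hθi : Function.Injective θ) (h : ∀ y, ∃ i, T i y = θ y) : MeasurePreserving θ m m := by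
  obtain ⟨e, he⟩ := exists_surjective_nat ι
  let D : ℕ → Set Y := fun n => {y | T (e n) y = θ y}
  have hD : ∀ n, MeasurableSet (D n) := fun n => measurableSet_eq_fun (hT _).measurable hθ
  have hD' : ∀ n, MeasurableSet (disjointed D n) := MeasurableSet.disjointed hD
  have hcov : ⋃ n, disjointed D n = univ := by
    rw [iUnion_disjointed, eq_univ_iff_forall]
    intro y
    obtain ⟨i, hi⟩ := h y
    obtain ⟨n, rfl⟩ := he i
    exact mem_iUnion.2 ⟨n, hi⟩
  refine ⟨hθ, ?_⟩
  have : IsProbabilityMeasure (m.map θ) := Measure.isProbabilityMeasure_map hθ.aemeasurable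
  apply Measure.eq_of_le_of_isProbabilityMeasure
  rw [Measure.le_iff]
  intro B hB
  rw [Measure.map_apply hθ hB]
  have him : ∀ n, MeasurableSet (θ '' disjointed D n ∩ B) := fun n =>
    ((hD' n).image_of_measurable_injOn hθ hθi.injOn).inter hB
  calc m (θ ⁻¹' B) ≤ m (⋃ n, T (e n) ⁻¹' (θ '' disjointed D n ∩ B)) := by
        apply measure_mono
        intro y hy
        have : y ∈ ⋃ n, disjointed D n := by rw [hcov]; trivial
        obtain ⟨n, hn⟩ := mem_iUnion.1 this
        have h1 : T (e n) y = θ y := disjointed_subset D n hn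
        refine mem_iUnion.2 ⟨n, ?_⟩
        show T (e n) y ∈ θ '' disjointed D n ∩ B
        rw [h1]
        exact ⟨⟨y, hn, rfl⟩, hy⟩
    _ ≤ ∑' n, m (T (e n) ⁻¹' (θ '' disjointed D n ∩ B)) := measure_iUnion_le _
    _ = ∑' n, m (θ '' disjointed D n ∩ B) := by
        congr 1; funext n
        exact (hT _).measure_preimage (him n).nullMeasurableSet
    _ = m (⋃ n, θ '' disjointed D n ∩ B) := by
        refine (measure_iUnion ?_ him).symm
        intro i j hij
        refine Disjoint.mono inter_subset_left inter_subset_left ?_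
        exact (disjoint_image_iff hθi).2 (disjoint_disjointed D hij)
    _ ≤ m B := measure_mono (iUnion_subset fun n => inter_subset_right)

def RelL (l : Lam) (x y : Xs) : Prop := {g | shf l x g ≠ y g}.Finite

def Frel (x y : Xs) : Prop := ∃ l, RelL l x y

theorem frel_shf (l : Lam) (x : Xs) : Frel x (shf l x) := ⟨l, by simp [RelL]⟩

theorem frel_flip (g : Lam) (x : Xs) : Frel x (ee g + x) := by
  refine ⟨1, (finite_singleton g).subset ?_⟩
  intro a ha
  by_contra hc
  apply ha
  rw [shf_one]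
  simp [ee, Pi.single_eq_of_ne (show a ≠ g from hc)]

theorem prod_decomp (m' : Measure (Xs × ℝ)) [IsProbabilityMeasure m']
    (h : ∀ g, MeasurePreserving (fun z : Xs × ℝ => (ee g + z.1, z.2)) m' m') :
    mu.prod (m'.map Prod.snd) = m' := by
  have : IsProbabilityMeasure (m'.map Prod.snd) :=
    Measure.isProbabilityMeasure_map measurable_snd.aemeasurable
  refine Measure.prod_eq fun s t hs ht => ?_
  let ν : Measure Xs := (m'.restrict (univ ×ˢ t)).map Prod.fst
  have hν : ∀ s, MeasurableSet s → ν s = m' (s ×ˢ t) := by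
    intro s hs
    simp only [ν]
    rw [Measure.map_apply measurable_fst hs, Measure.restrict_apply (measurable_fst hs)]
    congr 1
    ext z; simp
  have hc : m' (univ ×ˢ t) ≠ ⊤ := measure_ne_top _ _
  have : IsFiniteMeasure (m' (univ ×ˢ t) • mu) := ⟨by simpa using hc.lt_top⟩
  have h1 : ν = m' (univ ×ˢ t) • mu := by
    refine measure_unique _ _ (fun g => ?_) (fun g => (mp_add _).smul_measure _) ?_
    · refine ⟨measurable_const_add _, ?_⟩
      ext s hs
      rw [Measure.map_apply (measurable_const_add _) hs, hν _ (measurable_const_add _ hs), hν _ hs,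
        ← (h g).measure_preimage (hs.prod ht).nullMeasurableSet]
      rfl
    · rw [hν _ MeasurableSet.univ]; simp
  rw [← hν s hs, h1, Measure.map_apply measurable_snd ht, Measure.smul_apply, smul_eq_mul, mul_comm]
  congr 2
  ext z; simp

theorem gap_prod (κ : Measure ℝ) [IsProbabilityMeasure κ] {H : Xs × ℝ → ℝ} (hm : Measurable H)
    (hC : ∀ z, |H z| ≤ 1) : ∃ I : ℝ → ℝ, Measurable I ∧ (∀ r, |I r| ≤ 1) ∧
    ∫ z, (H z - I z.2) ^ 2 ∂(mu.prod κ) ≤
      6 * (∫ z, (H (shf (FreeGroup.of false) z.1, z.2) - H z) ^ 2 ∂(mu.prod κ) +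
        ∫ z, (H (shf (FreeGroup.of true) z.1, z.2) - H z) ^ 2 ∂(mu.prod κ)) := by
  have hI : Measurable fun r => ∫ x, H (x, r) ∂mu :=
    (hm.stronglyMeasurable.integral_prod_left' (μ := mu)).measurable
  have hIb : ∀ r, |∫ x, H (x, r) ∂mu| ≤ 1 := by
    intro r
    have := norm_integral_le_of_norm_le_const (μ := mu) (f := fun x => H (x, r)) (C := 1)
      (Eventually.of_forall fun x => hC _)
    simpa using this
  refine ⟨_, hI, hIb, ?_⟩
  have sq4 : ∀ a b : ℝ, |a| ≤ 1 → |b| ≤ 1 → |(a - b) ^ 2| ≤ 4 := by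
    intro a b ha hb
    rw [abs_le] at ha hb
    rw [abs_of_nonneg (sq_nonneg _)]
    nlinarith
  have i0 : Integrable (fun z : Xs × ℝ => (H z - ∫ x, H (x, z.2) ∂mu) ^ 2) (mu.prod κ) :=
    integrable_bdd _ ((hm.sub (hI.comp measurable_snd)).pow_const 2) fun z =>
      sq4 _ _ (hC _) (hIb _)
  have i1 : ∀ l, Integrable (fun z : Xs × ℝ => (H (shf l z.1, z.2) - H z) ^ 2) (mu.prod κ) :=
    fun l => integrable_bdd _ (((hm.comp (((measurable_shf l).comp measurable_fst).prodMk
      measurable_snd)).sub hm).pow_const 2) fun z => sq4 _ _ (hC _) (hC _)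
  rw [integral_prod_symm _ i0, integral_prod_symm _ (i1 _), integral_prod_symm _ (i1 _),
    ← integral_add (i1 _).integral_prod_right (i1 _).integral_prod_right, ← integral_const_mul]
  refine integral_mono i0.integral_prod_right
    (((i1 _).integral_prod_right.add (i1 _).integral_prod_right).const_mul _) fun r => ?_
  exact gap (h := fun x => H (x, r)) (hm.comp (measurable_id.prodMk measurable_const))
    fun x => hC _

theorem core {Y : Type} [MeasurableSpace Y] [StandardBorelSpace Y] (m : Measure Y)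
    [IsProbabilityMeasure m] {ι : Type} [Countable ι] [Nonempty ι] (T : ι → Y → Y)
    (hT : ∀ i, MeasurePreserving (T i) m m) (F' : Y → Y → Prop)
    (hF' : ∀ y y', F' y y' ↔ ∃ i, T i y = y') (hemb : InvEmbeds F' (realMul Frel))
    (Ψ : ℕ → Y → ℝ) (hΨm : ∀ n, Measurable (Ψ n)) (hΨb : ∀ n y, |Ψ n y| ≤ 1)
    (hlim : ∀ i y, Tendsto (fun n => Ψ n (T i y) - Ψ n y) atTop (𝓝 0))
    (hneg : ∀ n, ∃ i, ∀ᵐ y ∂m, Ψ n (T i y) = - Ψ n y) :
    Tendsto (fun n => ∫ y, Ψ n y ^ 2 ∂m) atTop (𝓝 0) := by
  obtain ⟨f, hf, hfi, hfF, hfr⟩ := hemb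
  have hfe : MeasurableEmbedding f := hf.measurableEmbedding hfi
  have hlift : ∀ θ : Xs → Xs, Measurable θ → (∀ x, Frel x (θ x)) →
      ∃ θ' : Y → Y, Measurable θ' ∧ (∀ y, f (θ' y) = (θ (f y).1, (f y).2)) ∧
        ∀ y, ∃ i, T i y = θ' y := by
    intro θ hθ hθF
    have h1 : ∀ y, ∃ y', f y' = (θ (f y).1, (f y).2) := fun y => hfr y _ ⟨hθF _, rfl⟩
    choose θ' hθ' using h1
    refine ⟨θ', ?_, hθ', fun y => ?_⟩
    · rw [← hfe.measurable_comp_iff]
      have : f ∘ θ' = fun y => (θ (f y).1, (f y).2) := funext hθ'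
      rw [this]
      exact (hθ.comp (measurable_fst.comp hf)).prodMk (measurable_snd.comp hf)
    · rw [← hF', hfF, hθ']
      exact ⟨hθF _, rfl⟩
  have hprob : IsProbabilityMeasure (m.map f) := Measure.isProbabilityMeasure_map hf.aemeasurable
  have hinv : ∀ g, MeasurePreserving (fun z : Xs × ℝ => (ee g + z.1, z.2)) (m.map f) (m.map f) := by
    intro g
    obtain ⟨θ', h1, h2, h3⟩ := hlift (fun x => ee g + x) (measurable_const_add _) (frel_flip g)
    have hi : Function.Injective θ' := by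
      intro y y' hyy
      apply hfi
      have := h2 y
      rw [hyy, h2 y'] at this
      have e1 := congrArg Prod.fst this
      have e2 := congrArg Prod.snd this
      exact Prod.ext (add_left_cancel e1).symm e2.symm
    have h4 := fullgroup_mp m T hT θ' h1 hi h3
    have hmg : Measurable fun z : Xs × ℝ => (ee g + z.1, z.2) :=
      ((measurable_const_add _).comp measurable_fst).prodMk measurable_snd
    refine ⟨hmg, ?_⟩
    rw [Measure.map_map hmg hf]
    have : (fun z : Xs × ℝ => (ee g + z.1, z.2)) ∘ f = f ∘ θ' := funext fun y => (h2 y).symm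
    rw [this, ← Measure.map_map hf h1, h4.map_eq]
  have hdec := prod_decomp (m.map f) hinv
  have hκ : IsProbabilityMeasure ((m.map f).map Prod.snd) :=
    Measure.isProbabilityMeasure_map measurable_snd.aemeasurable
  let H : ℕ → Xs × ℝ → ℝ := fun n => Function.extend f (Ψ n) fun _ => 0
  have hHm : ∀ n, Measurable (H n) := fun n => hfe.measurable_extend (hΨm n) measurable_const
  have hHf : ∀ n y, H n (f y) = Ψ n y := fun n y => hfi.extend_apply _ _ _
  have hHb : ∀ n z, |H n z| ≤ 1 := by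
    intro n z
    by_cases hz : ∃ y, f y = z
    · obtain ⟨y, rfl⟩ := hz
      rw [hHf]; exact hΨb n y
    · simp only [H]
      rw [Function.extend_apply' _ _ _ hz]; simp
  have sq4 : ∀ a b : ℝ, |a| ≤ 1 → |b| ≤ 1 → |(a - b) ^ 2| ≤ 4 := by
    intro a b ha hb
    rw [abs_le] at ha hb
    rw [abs_of_nonneg (sq_nonneg _)]
    nlinarith
  have hD : ∀ l, Tendsto (fun n => ∫ z, (H n (shf l z.1, z.2) - H n z) ^ 2 ∂(m.map f)) atTop
      (𝓝 0) := by
    intro l
    obtain ⟨θ', h1, h2, h3⟩ := hlift (shf l) (measurable_shf l) (frel_shf l)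
    have e : ∀ n, ∫ z, (H n (shf l z.1, z.2) - H n z) ^ 2 ∂(m.map f) =
        ∫ y, (Ψ n (θ' y) - Ψ n y) ^ 2 ∂m := by
      intro n
      rw [hfe.integral_map]
      congr 1; funext y
      rw [← h2, hHf, hHf]
    simp only [e]
    have := tendsto_integral_of_dominated_convergence (μ := m)
      (F := fun n y => (Ψ n (θ' y) - Ψ n y) ^ 2) (f := fun _ => (0 : ℝ)) (fun _ => 4)
      (fun n => ((((hΨm n).comp h1).sub (hΨm n)).pow_const 2).aestronglyMeasurable)
      (integrable_const _) (fun n => Eventually.of_forall fun y => sq4 _ _ (hΨb _ _) (hΨb _ _))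
      (Eventually.of_forall fun y => by
        obtain ⟨i, hi⟩ := h3 y
        have := (hlim i y).pow 2
        rw [hi] at this
        simpa using this)
    simpa using this
  have hbound : ∀ n, ∫ y, Ψ n y ^ 2 ∂m ≤
      6 * (∫ z, (H n (shf (FreeGroup.of false) z.1, z.2) - H n z) ^ 2 ∂(m.map f) +
        ∫ z, (H n (shf (FreeGroup.of true) z.1, z.2) - H n z) ^ 2 ∂(m.map f)) := by
    intro n
    obtain ⟨I, hIm, hIb, hI⟩ := gap_prod ((m.map f).map Prod.snd) (hHm n) (hHb n)
    rw [hdec] at hI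
    refine le_trans ?_ hI
    rw [hfe.integral_map]
    simp only [hHf]
    obtain ⟨i, hi⟩ := hneg n
    have hJ : Measurable fun y => I (f y).2 := hIm.comp (measurable_snd.comp hf)
    have hm1 : Measurable fun y => (Ψ n y - I (f y).2) ^ 2 := ((hΨm n).sub hJ).pow_const 2
    have hm2 : Measurable fun y => (- Ψ n y - I (f y).2) ^ 2 := ((hΨm n).neg.sub hJ).pow_const 2
    have e1 : ∫ y, (Ψ n y - I (f y).2) ^ 2 ∂m = ∫ y, (- Ψ n y - I (f y).2) ^ 2 ∂m := by
      have := integral_map (μ := m) (hT i).measurable.aemeasurable hm1.aestronglyMeasurable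
      rw [(hT i).map_eq] at this
      rw [this]
      refine integral_congr_ae ?_
      filter_upwards [hi] with y hy
      have h2 : (f y).2 = (f (T i y)).2 := ((hfF _ _).1 ((hF' _ _).2 ⟨i, rfl⟩)).2
      rw [hy, ← h2]
    have i1 := integrable_bdd m hm1 fun y => sq4 _ _ (hΨb _ _) (hIb _)
    have i2 := integrable_bdd m hm2 fun y => sq4 _ _ (by rw [abs_neg]; exact hΨb _ _) (hIb _)
    have i0 := integrable_bdd m ((hΨm n).pow_const 2) (C := 4) fun y => by
      simpa using sq4 (Ψ n y) 0 (hΨb _ _) (by simp)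
    have h3 : ∫ y, 2 * Ψ n y ^ 2 ∂m ≤
        ∫ y, ((Ψ n y - I (f y).2) ^ 2 + (- Ψ n y - I (f y).2) ^ 2) ∂m := by
      refine integral_mono (i0.const_mul 2) (i1.add i2) fun y => ?_
      simp only
      nlinarith [sq_nonneg (I (f y).2)]
    rw [integral_const_mul, integral_add i1 i2, ← e1] at h3
    linarith
  have hlim2 := ((hD (FreeGroup.of false)).add (hD (FreeGroup.of true))).const_mul 6
  simp only [add_zero, mul_zero] at hlim2
  exact squeeze_zero (fun n => integral_nonneg fun y => sq_nonneg _) hbound hlim2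

end Pool.Agent.H987Z.US
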