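import Mathlib
import Pool.Agent.H987Z.US.Defs

set_option autoImplicit false

namespace Pool.Agent.H987Z.US

open Set

theorem sat_equiv {L : RelLang} {M N : Type} (e : M ≃ N)
    (I : (R : L.sym) → (Fin (L.ar R) → M) → Prop) (J : (R : L.sym) → (Fin (L.ar R) → N) → Prop)
    (h : ∀ R v, I R v ↔ J R (fun k => e (v k))) {n : ℕ} (φ : Form L n) :
    ∀ a : Fin n → M, φ.Sat I a ↔ φ.Sat J (fun k => e (a k)) := by
  induction φ with
  | eq i j => intro a; simp [Form.Sat]
  | rel R v => intro a; simp only [Form.Sat]; exact h R _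
  | not φ ih => intro a; simp only [Form.Sat]; rw [ih]
  | conj φ ih => intro a; simp only [Form.Sat]; exact forall_congr' fun m => ih m a
  | @ex n φ ih =>
    intro a
    simp only [Form.Sat]
    have key : ∀ x : M, (fun k => e ((Fin.cons x a : Fin (n + 1) → M) k)) =
        (Fin.cons (e x) (fun k => e (a k)) : Fin (n + 1) → N) := by
      intro x
      funext k
      refine Fin.cases ?_ (fun k => ?_) k <;> simp
    constructor
    · rintro ⟨x, hx⟩
      refine ⟨e x, ?_⟩
      rw [← key]
      exact (ih _).1 hx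
    · rintro ⟨y, hy⟩
      obtain ⟨x, rfl⟩ := e.surjective y
      refine ⟨x, (ih _).2 ?_⟩
      rw [key]
      exact hy

/-- structurability pulls back along class-bijective homomorphisms -/
theorem structurable_pullback {L : RelLang} (σ : Form L 0) {Z Y : Type} [MeasurableSpace Z]
    [MeasurableSpace Y] {F : Z → Z → Prop} {U : Y → Y → Prop} (hF : IsCBER F)
    (p : Z → Y) (hp : Measurable p) (hom : ∀ a b, F a b → U (p a) (p b))
    (hinj : ∀ a b, F a b → p a = p b → a = b)
    (hsurj : ∀ a y, U (p a) y → ∃ b, F a b ∧ p b = y) (hU : Structurable σ U) :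
    Structurable σ F := by
  obtain ⟨A, hA1, -, hA3⟩ := hU
  refine ⟨fun R => {v | (∀ i j, F (v i) (v j)) ∧ (fun k => p (v k)) ∈ A R}, ?_, ?_, ?_⟩
  · intro R
    refine MeasurableSet.inter ?_ ?_
    · have : {v : Fin (L.ar R) → Z | ∀ i j, F (v i) (v j)} =
          ⋂ i, ⋂ j, (fun v : Fin (L.ar R) → Z => (v i, v j)) ⁻¹' {q : Z × Z | F q.1 q.2} := by
        ext v; simp
      show MeasurableSet {v : Fin (L.ar R) → Z | ∀ i j, F (v i) (v j)}
      rw [this]
      exact MeasurableSet.iInter fun i => MeasurableSet.iInter fun j =>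
        ((measurable_pi_apply i).prodMk (measurable_pi_apply j)) hF.borel
    · exact (measurable_pi_lambda (fun (v : Fin (L.ar R) → Z) k => p (v k))
        fun k => hp.comp (measurable_pi_apply k)) (hA1 R)
  · intro R v hv
    exact hv.1
  · intro x
    let g : {b // F x b} → {y // U (p x) y} := fun b => ⟨p b.1, hom _ _ b.2⟩
    have hg : Function.Bijective g := by
      constructor
      · intro b b' hbb
        apply Subtype.ext
        exact hinj _ _ (hF.equiv.trans (hF.equiv.symm b.2) b'.2) (congrArg Subtype.val hbb)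
      · intro y
        obtain ⟨b, hb, hb'⟩ := hsurj x y.1 y.2
        exact ⟨⟨b, hb⟩, Subtype.ext hb'⟩
    have := (sat_equiv (Equiv.ofBijective g hg)
      (fun R v => (fun k => (v k).1) ∈
        {v : Fin (L.ar R) → Z | (∀ i j, F (v i) (v j)) ∧ (fun k => p (v k)) ∈ A R})
      (fun R v => (fun k => (v k).1) ∈ A R) (fun R v => ?_) σ Fin.elim0).2
    · apply this
      have e0 : (fun k : Fin 0 => (Equiv.ofBijective g hg) (Fin.elim0 k)) = Fin.elim0 := by
        funext k; exact Fin.elim0 k
      rw [e0]
      exact hA3 (p x)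
    · constructor
      · intro h; exact h.2
      · intro h
        exact ⟨fun i j => hF.equiv.trans (hF.equiv.symm (v i).2) (v j).2, h⟩

/-- A universally structurable relation invariantly contains its class-bijective extensions. -/
theorem invEmbeds_of_univ {X Z : Type} [MeasurableSpace X] [StandardBorelSpace X]
    [MeasurableSpace Z] [StandardBorelSpace Z] {E : X → X → Prop} {F : Z → Z → Prop}
    (hE : UniversallyStructurable E) (hF : IsCBER F)
    (p : Z → X) (hp : Measurable p) (hom : ∀ a b, F a b → E (p a) (p b))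
    (hinj : ∀ a b, F a b → p a = p b → a = b)
    (hsurj : ∀ a y, E (p a) y → ∃ b, F a b ∧ p b = y) : InvEmbeds F E := by
  obtain ⟨L, σ, Y, _, _, U, ⟨-, hU2, hU3⟩, f, hf, hfb, hfE⟩ := hE
  have hs : Structurable σ F := by
    refine structurable_pullback σ hF (f ∘ p) (hf.comp hp) ?_ ?_ ?_ hU2
    · intro a b hab
      exact (hfE _ _).1 (hom a b hab)
    · intro a b hab h
      exact hinj a b hab (hfb.1 h)
    · intro a y hy
      obtain ⟨x, rfl⟩ := hfb.2 y
      obtain ⟨b, hb, hb'⟩ := hsurj a x ((hfE _ _).2 hy)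
      exact ⟨b, hb, by simp [hb']⟩
  obtain ⟨k, hk, hki, hkF, hkr⟩ := hU3 Z F hF hs
  have hemb : MeasurableEmbedding f := hf.measurableEmbedding hfb.1
  let g : Y → X := Function.surjInv hfb.2
  have hfg : ∀ y, f (g y) = y := Function.surjInv_eq hfb.2
  have hg : Measurable g := by
    rw [← hemb.measurable_comp_iff]
    have : f ∘ g = id := funext hfg
    rw [this]; exact measurable_id
  refine ⟨g ∘ k, hg.comp hk, ?_, ?_, ?_⟩
  · intro a b hab
    apply hki
    rw [← hfg (k a), ← hfg (k b)]
    exact congrArg f hab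
  · intro a b
    rw [hkF, hfE]
    simp [hfg]
  · intro a x hx
    rw [hfE] at hx
    simp only [Function.comp, hfg] at hx
    obtain ⟨b, hb⟩ := hkr a _ hx
    refine ⟨b, hfb.1 ?_⟩
    simp [hfg, hb]

end Pool.Agent.H987Z.US
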