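import Mathlib
import Pool.Agent.H987Z.US.Defs
import Pool.Agent.H987Z.US.Pull
import Pool.Agent.H987Z.US.Core

set_option autoImplicit false

namespace Pool.Agent.H987Z.US

open Set MeasureTheory Topology Filter

theorem RelL.refl (x : Xs) : RelL 1 x x := by simp [RelL, shf_one]

theorem RelL.trans {l l' : Lam} {x y z : Xs} (h : RelL l x y) (h' : RelL l' y z) :
    RelL (l' * l) x z := by
  have h1 : {g | shf l' (shf l x) g ≠ shf l' y g}.Finite := by
    have := Set.Finite.preimage (f := fun g : Lam => l'⁻¹ * g) (mul_right_injective _).injOn h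
    exact this
  refine (h1.union h').subset ?_
  intro g hg
  by_contra hc
  simp only [mem_union, mem_ofPred_eq, not_or, not_not] at hc
  apply hg
  rw [shf_mul, hc.1, hc.2]

theorem RelL.symm {l : Lam} {x y : Xs} (h : RelL l x y) : RelL l⁻¹ y x := by
  have := Set.Finite.preimage (f := fun g : Lam => l * g) (mul_right_injective _).injOn h
  refine this.subset ?_
  intro g hg
  simp only [shf, inv_inv, mem_ofPred_eq, mem_preimage, inv_mul_cancel_left] at hg ⊢
  exact Ne.symm hg

abbrev Idx : Type := Lam × (Lam →₀ ZMod 2)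

def T0 (γ : Idx) (x : Xs) : Xs := (γ.2 : Xs) + shf γ.1 x

theorem relL_iff (l : Lam) (x y : Xs) : RelL l x y ↔ ∃ φ, T0 (l, φ) x = y := by
  constructor
  · intro h
    refine ⟨Finsupp.ofSupportFinite (y - shf l x) (h.subset ?_), ?_⟩
    · intro g hg
      simp only [Function.mem_support, Pi.sub_apply, ne_eq, sub_eq_zero] at hg
      exact fun e => hg e.symm
    · simp [T0, Finsupp.ofSupportFinite_coe]
  · rintro ⟨φ, rfl⟩
    refine φ.support.finite_toSet.subset ?_
    intro g hg
    simp only [T0, Pi.add_apply, mem_ofPred_eq] at hg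
    simp only [Finset.mem_coe, Finsupp.mem_support_iff]
    intro h0
    apply hg
    rw [h0, zero_add]

theorem mp_T0 (γ : Idx) : MeasurePreserving (T0 γ) mu mu := (mp_add _).comp (mp_shf _)

theorem frel_iff (x y : Xs) : Frel x y ↔ ∃ γ, T0 γ x = y := by
  simp only [Frel, relL_iff, Prod.exists]

theorem isCBER_of_family {Y : Type} [MeasurableSpace Y] [StandardBorelSpace Y] {ι : Type}
    [Countable ι] (T : ι → Y → Y) (hT : ∀ i, Measurable (T i)) {F : Y → Y → Prop}
    (hF : Equivalence F) (h : ∀ y y', F y y' ↔ ∃ i, T i y = y') : IsCBER F := by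
  refine ⟨hF, ?_, fun y => ?_⟩
  · have : {p : Y × Y | F p.1 p.2} = ⋃ i, {p : Y × Y | T i p.1 = p.2} := by
      ext p; simp [h]
    rw [this]
    exact MeasurableSet.iUnion fun i =>
      measurableSet_eq_fun ((hT i).comp measurable_fst) measurable_snd
  · refine (countable_range fun i => T i y).mono ?_
    intro y' hy'
    exact (h _ _).1 hy'

theorem frel_equiv : Equivalence Frel :=
  ⟨fun x => ⟨1, RelL.refl x⟩, fun ⟨_, h⟩ => ⟨_, h.symm⟩, fun ⟨_, h⟩ ⟨_, h'⟩ => ⟨_, h.trans h'⟩⟩

theorem isCBER_E : IsCBER (realMul Frel) := by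
  refine isCBER_of_family (fun (γ : Idx) (z : Xs × ℝ) => (T0 γ z.1, z.2))
    (fun γ => ((mp_T0 γ).measurable.comp measurable_fst).prodMk measurable_snd)
    ⟨fun z => ⟨frel_equiv.refl _, rfl⟩, fun h => ⟨frel_equiv.symm h.1, h.2.symm⟩,
      fun h h' => ⟨frel_equiv.trans h.1 h'.1, h.2.trans h'.2⟩⟩ ?_
  rintro ⟨x, r⟩ ⟨x', r'⟩
  simp [realMul, frel_iff]

theorem iso_E : BorelIso (realMul (realMul Frel)) (realMul Frel) := by
  let e : ℝ × ℝ ≃ᵐ ℝ := PolishSpace.measurableEquivOfNotCountable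
    (not_countable_iff.2 inferInstance) (not_countable_iff.2 inferInstance)
  refine ⟨fun z => (z.1.1, e (z.1.2, z.2)), ?_, ⟨?_, ?_⟩, ?_⟩
  · exact (measurable_fst.comp measurable_fst).prodMk
      (e.measurable.comp ((measurable_snd.comp measurable_fst).prodMk measurable_snd))
  · rintro ⟨⟨x, r⟩, s⟩ ⟨⟨x', r'⟩, s'⟩ h
    simp only [Prod.mk.injEq, EmbeddingLike.apply_eq_iff_eq] at h
    simp [h.1, h.2.1, h.2.2]
  · rintro ⟨x, u⟩
    exact ⟨((x, (e.symm u).1), (e.symm u).2), by simp⟩
  · rintro ⟨⟨x, r⟩, s⟩ ⟨⟨x', r'⟩, s'⟩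
    simp [realMul, and_assoc]

def X0 : Set Xs := {x | ∀ l, RelL l x x → l = 1}

theorem X0_inv {l : Lam} {x y : Xs} (h : RelL l x y) (hy : y ∈ X0) : x ∈ X0 := by
  intro k hk
  have := hy _ ((h.symm.trans hk).trans h)
  have h2 : k = l⁻¹ * (l * (k * l⁻¹)) * l := by group
  rw [h2, this]; simp

theorem X0_iff {l : Lam} {x y : Xs} (h : RelL l x y) : x ∈ X0 ↔ y ∈ X0 :=
  ⟨X0_inv h.symm, X0_inv h⟩

theorem X0_compl : X0ᶜ = ⋃ γ : {γ : Idx // γ.1 ≠ 1}, {x | T0 γ.1 x = x} := by
  ext x
  simp only [X0, relL_iff, mem_compl_iff, mem_ofPred_eq, mem_iUnion, not_forall]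
  constructor
  · rintro ⟨l, ⟨φ, h⟩, hl⟩
    exact ⟨⟨(l, φ), hl⟩, h⟩
  · rintro ⟨⟨⟨l, φ⟩, hl⟩, h⟩
    exact ⟨l, ⟨φ, h⟩, hl⟩

theorem measurableSet_X0 : MeasurableSet X0 := by
  rw [← MeasurableSet.compl_iff, X0_compl]
  exact MeasurableSet.iUnion fun γ => measurableSet_eq_fun (mp_T0 _).measurable measurable_id

theorem null_fix (γ : Idx) (hγ : γ.1 ≠ 1) : mu {x | T0 γ x = x} = 0 := by
  have hm : MeasurableSet {x | T0 γ x = x} :=
    measurableSet_eq_fun (mp_T0 _).measurable measurable_id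
  by_contra hne
  have hdis : Pairwise (Function.onFun Disjoint
      fun g : Lam => (fun x => ee g + x) ⁻¹' {x | T0 γ x = x}) := by
    intro g g' hgg
    rw [Function.onFun, Set.disjoint_left]
    intro x h1 h2
    simp only [T0, mem_preimage, mem_ofPred_eq, shf_add, shf_ee] at h1 h2
    have h3 : ee (γ.1 * g) + ee g' = ee (γ.1 * g') + ee g := by
      have e1 : ee (γ.1 * g) = ee g + x - γ.2 - shf γ.1 x := by rw [← h1]; abel
      have e2 : ee (γ.1 * g') = ee g' + x - γ.2 - shf γ.1 x := by rw [← h2]; abel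
      rw [e1, e2]; abel
    have h01 : (1 : ZMod 2) ≠ 0 := by decide
    have n1 : g ≠ γ.1 * g := fun h => hγ (by simpa using h.symm)
    have n2 : g' ≠ γ.1 * g' := fun h => hγ (by simpa using h.symm)
    have a1 : g = γ.1 * g' := by
      by_contra hc
      have := congrFun h3 g
      simp [ee, Pi.single_eq_of_ne n1, Pi.single_eq_of_ne hgg, Pi.single_eq_of_ne hc] at this
    have a2 : g' = γ.1 * g := by
      by_contra hc
      have := congrFun h3 g'
      simp [ee, Pi.single_eq_of_ne n2, Pi.single_eq_of_ne (Ne.symm hgg),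
        Pi.single_eq_of_ne hc] at this
    have a3 : γ.1 ^ 2 = 1 := by
      have : γ.1 * (γ.1 * g') = g' := by rw [← a1, ← a2]
      rw [← mul_assoc] at this
      rw [sq]
      simpa using this
    exact hγ ((pow_eq_one_iff_left (by norm_num)).1 a3)
  have h1 := measure_iUnion (μ := mu) hdis fun g => measurable_const_add _ hm
  have h2 : ∀ g : Lam, mu ((fun x => ee g + x) ⁻¹' {x | T0 γ x = x}) = mu {x | T0 γ x = x} :=
    fun g => (mp_add _).measure_preimage hm.nullMeasurableSet
  simp only [h2] at h1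
  rw [ENNReal.tsum_const_eq_top_of_ne_zero hne] at h1
  exact measure_ne_top _ _ h1

theorem ae_X0 : ∀ᵐ x ∂mu, x ∈ X0 := by
  rw [ae_iff]
  show mu X0ᶜ = 0
  rw [X0_compl]
  exact measure_iUnion_null fun γ => null_fix _ γ.2

abbrev As : Type := ℕ → UnitAddCircle

noncomputable def nu : Measure As := Measure.addHaarMeasure ⊤

instance : IsProbabilityMeasure nu :=
  ⟨by rw [← TopologicalSpace.PositiveCompacts.coe_top]; exact Measure.addHaarMeasure_self⟩

instance : nu.IsAddLeftInvariant := by unfold nu; infer_instance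

def chi : Lam →* Multiplicative ℤ := FreeGroup.lift fun _ => Multiplicative.ofAdd 1

def deg (l : Lam) : ℤ := (chi l).toAdd

theorem deg_one : deg 1 = 0 := by simp [deg]
theorem deg_mul (a b : Lam) : deg (a * b) = deg a + deg b := by simp [deg]
theorem deg_inv (a : Lam) : deg a⁻¹ = - deg a := by simp [deg]
theorem deg_pow (n : ℕ) : deg (FreeGroup.of true ^ n) = n := by simp [deg, chi]

noncomputable def rot (k : ℤ) : As := fun n => (((k : ℝ) / (2 * (n + 1)) : ℝ) : UnitAddCircle)

theorem rot_zero : rot 0 = 0 := by funext n; simp [rot]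

theorem rot_add (a b : ℤ) : rot (a + b) = rot a + rot b := by
  funext n
  simp only [rot, Pi.add_apply, ← AddCircle.coe_add]
  congr 1
  push_cast; ring

open Classical in
noncomputable def coc (l : Lam) (x : Xs) : ℤ := if x ∈ X0 then deg l else 0

noncomputable def T1 (γ : Idx) (z : Xs × As) : Xs × As := (T0 γ z.1, rot (coc γ.1 z.1) + z.2)

def F1 (z z' : Xs × As) : Prop := ∃ l, RelL l z.1 z'.1 ∧ z'.2 = rot (coc l z.1) + z.2

theorem F1_iff (z z' : Xs × As) : F1 z z' ↔ ∃ γ, T1 γ z = z' := by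
  obtain ⟨x', a'⟩ := z'
  simp only [F1, relL_iff, T1, Prod.exists, Prod.mk.injEq]
  constructor
  · rintro ⟨l, ⟨φ, h⟩, h'⟩
    exact ⟨l, φ, h, h'.symm⟩
  · rintro ⟨l, φ, h, h'⟩
    exact ⟨l, ⟨φ, h⟩, h'.symm⟩

theorem coc_mul {l l' : Lam} {x y : Xs} (h : RelL l x y) :
    coc (l' * l) x = coc l' y + coc l x := by
  by_cases hx : x ∈ X0
  · simp only [coc, if_pos hx, if_pos ((X0_iff h).1 hx)]
    exact deg_mul _ _
  · simp only [coc, if_neg hx, if_neg (mt (X0_iff h).2 hx)]
    rfl

theorem coc_self {l : Lam} {x : Xs} (h : RelL l x x) : coc l x = 0 := by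
  simp only [coc]
  split_ifs with hx
  · rw [hx l h, deg_one]
  · rfl

theorem F1_equiv : Equivalence F1 := by
  refine ⟨fun z => ⟨1, RelL.refl _, by rw [coc_self (RelL.refl _), rot_zero, zero_add]⟩, ?_, ?_⟩
  · rintro z z' ⟨l, h, h'⟩
    refine ⟨l⁻¹, h.symm, ?_⟩
    rw [h', ← add_assoc, ← rot_add, ← coc_mul h, inv_mul_cancel, coc_self (RelL.refl _), rot_zero,
      zero_add]
  · rintro z z' z'' ⟨l, h, h'⟩ ⟨l', k, k'⟩
    exact ⟨l' * l, h.trans k, by rw [k', h', coc_mul h, rot_add, add_assoc]⟩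

theorem measurable_coc (l : Lam) : Measurable (coc l) :=
  Measurable.ite measurableSet_X0 measurable_const measurable_const

theorem measurable_T1 (γ : Idx) : Measurable (T1 γ) :=
  ((mp_T0 γ).measurable.comp measurable_fst).prodMk
    ((((measurable_of_countable rot).comp (measurable_coc _)).comp measurable_fst).add
      measurable_snd)

theorem mp_T1 (γ : Idx) : MeasurePreserving (T1 γ) (mu.prod nu) (mu.prod nu) := by
  refine ((mp_T0 γ).prod (measurePreserving_add_left nu (rot (deg γ.1)))).congr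
    (measurable_T1 γ) ?_
  filter_upwards [Measure.quasiMeasurePreserving_fst.ae ae_X0] with z hz
  simp [T1, coc, hz, Prod.map]

theorem isCBER_F1 : IsCBER F1 := isCBER_of_family T1 measurable_T1 F1_equiv F1_iff

noncomputable def psi (n : ℕ) (z : Xs × As) : ℂ := fourier 1 (z.2 n)

theorem measurable_psi (n : ℕ) : Measurable (psi n) :=
  (fourier 1).continuous.measurable.comp ((measurable_pi_apply n).comp measurable_snd)

theorem norm_psi (n : ℕ) (z : Xs × As) : ‖psi n z‖ = 1 := by
  simp [psi, fourier_apply]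

theorem psi_T1 (n : ℕ) (γ : Idx) (z : Xs × As) :
    psi n (T1 γ z) = Complex.exp (2 * Real.pi * Complex.I *
      ((coc γ.1 z.1 : ℝ) / (2 * (n + 1)) : ℝ)) * psi n z := by
  simp only [psi, T1, Pi.add_apply, fourier_one, AddCircle.toCircle_add, Circle.coe_mul]
  congr 1
  rw [← fourier_one, rot, fourier_coe_apply]
  simp

theorem psi_lim (γ : Idx) (z : Xs × As) :
    Tendsto (fun n => psi n (T1 γ z) - psi n z) atTop (𝓝 0) := by
  rw [tendsto_zero_iff_norm_tendsto_zero]
  have h1 : ∀ n, ‖psi n (T1 γ z) - psi n z‖ = ‖Complex.exp (2 * Real.pi * Complex.I *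
      ((coc γ.1 z.1 : ℝ) / (2 * (n + 1)) : ℝ)) - 1‖ := by
    intro n
    rw [psi_T1, ← sub_one_mul, norm_mul, norm_psi, mul_one]
  simp only [h1]
  have h2 : Tendsto (fun n : ℕ => ((coc γ.1 z.1 : ℝ) / (2 * (n + 1)) : ℝ)) atTop (𝓝 0) := by
    refine Tendsto.div_atTop tendsto_const_nhds ?_
    exact Tendsto.const_mul_atTop (by norm_num)
      (tendsto_atTop_add_const_right _ _ tendsto_natCast_atTop_atTop)
  have h3 : Continuous fun t : ℝ => ‖Complex.exp (2 * Real.pi * Complex.I * t) - 1‖ := by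
    fun_prop
  have := (h3.tendsto 0).comp h2
  simpa [Function.comp_def] using this

theorem psi_neg (n : ℕ) : ∀ᵐ z ∂(mu.prod nu),
    psi n (T1 (FreeGroup.of true ^ (n + 1), 0) z) = - psi n z := by
  filter_upwards [Measure.quasiMeasurePreserving_fst.ae ae_X0] with z hz
  rw [psi_T1]
  have h1 : coc (FreeGroup.of true ^ (n + 1)) z.1 = (n + 1 : ℕ) := by
    simp only [coc, if_pos hz, deg_pow]
  simp only [h1]
  have h2 : ((((n + 1 : ℕ) : ℤ) : ℝ) / (2 * (n + 1)) : ℝ) = 1 / 2 := by
    push_cast; field_simp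
  rw [h2]
  have h3 : (2 * Real.pi * Complex.I * ((1 / 2 : ℝ) : ℂ)) = Real.pi * Complex.I := by
    push_cast; ring
  rw [h3, Complex.exp_pi_mul_I]; ring

theorem not_invEmbeds : ¬ InvEmbeds F1 (realMul Frel) := by
  intro h
  have h1 := core (mu.prod nu) T1 mp_T1 F1 F1_iff h (fun n z => (psi n z).re)
    (fun n => Complex.measurable_re.comp (measurable_psi n))
    (fun n z => (Complex.abs_re_le_norm _).trans (norm_psi n z).le)
    (fun γ z => by
      simpa [Function.comp_def] using (Complex.continuous_re.tendsto 0).comp (psi_lim γ z))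
    (fun n => ⟨_, (psi_neg n).mono fun z hz => by rw [hz]; simp⟩)
  have h2 := core (mu.prod nu) T1 mp_T1 F1 F1_iff h (fun n z => (psi n z).im)
    (fun n => Complex.measurable_im.comp (measurable_psi n))
    (fun n z => (Complex.abs_im_le_norm _).trans (norm_psi n z).le)
    (fun γ z => by
      simpa [Function.comp_def] using (Complex.continuous_im.tendsto 0).comp (psi_lim γ z))
    (fun n => ⟨_, (psi_neg n).mono fun z hz => by rw [hz]; simp⟩)
  have h3 := h1.add h2
  have h4 : ∀ n, ∫ z, (psi n z).re ^ 2 ∂(mu.prod nu) + ∫ z, (psi n z).im ^ 2 ∂(mu.prod nu) = 1 := by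
    intro n
    have key : ∀ z, (psi n z).re ^ 2 + (psi n z).im ^ 2 = 1 := by
      intro z
      have := Complex.sq_norm (psi n z)
      rw [norm_psi, Complex.normSq_apply] at this
      nlinarith
    rw [← integral_add]
    · simp [key]
    · exact integrable_bdd _ ((Complex.measurable_re.comp (measurable_psi n)).pow_const 2)
        (C := 1) fun z => by
          rw [abs_of_nonneg (sq_nonneg _)]
          have := key z
          show (psi n z).re ^ 2 ≤ 1
          nlinarith [sq_nonneg (psi n z).im]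
    · exact integrable_bdd _ ((Complex.measurable_im.comp (measurable_psi n)).pow_const 2)
        (C := 1) fun z => by
          rw [abs_of_nonneg (sq_nonneg _)]
          have := key z
          show (psi n z).im ^ 2 ≤ 1
          nlinarith [sq_nonneg (psi n z).re]
  simp only [h4, add_zero] at h3
  exact one_ne_zero (tendsto_const_nhds_iff.1 h3)

theorem not_univ : ¬ UniversallyStructurable (realMul Frel) := by
  intro h
  apply not_invEmbeds
  refine invEmbeds_of_univ h isCBER_F1 (fun z => (z.1, 0))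
    (measurable_fst.prodMk measurable_const) ?_ ?_ ?_
  · rintro a b ⟨l, hl, -⟩
    exact ⟨⟨l, hl⟩, rfl⟩
  · rintro ⟨x, a⟩ ⟨x', a'⟩ ⟨l, hl, hl'⟩ hp
    have hx : x = x' := congrArg Prod.fst hp
    subst hx
    simp only at hl hl'
    rw [hl', coc_self hl, rot_zero, zero_add]
  · rintro ⟨x, a⟩ ⟨y, r⟩ ⟨⟨l, hl⟩, hr⟩
    exact ⟨(y, rot (coc l x) + a), ⟨l, hl, rfl⟩, Prod.ext rfl hr⟩

theorem main : ∃ (X : Type) (_ : MeasurableSpace X) (_ : StandardBorelSpace X)
    (E : X → X → Prop), IsCBER E ∧ BorelIso (realMul E) E ∧ ¬ UniversallyStructurable E :=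
  ⟨Xs × ℝ, inferInstance, inferInstance, realMul Frel, isCBER_E, iso_E, not_univ⟩

end Pool.Agent.H987Z.US
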